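import Pool.Agent.H37.CNK.Stmts

set_option autoImplicit false

namespace Pool.CND

theorem hi1_thm (hMLA : S_MLA) : S_HI1 := by
  intro p k L G _ _ _ _ _ _ ρ t P z x R hcv hodd hoz hcen hxz hcom hR hle hgap
  apply hMLA p k L G ρ t P z x R _
  refine ⟨hcv, hodd, hoz, hcen, ⟨?_⟩, ?_, ?_, hxz, ?_, ?_, ?_, rfl, hgap⟩
  · intro a ha g
    rw [hR] at ha ⊢
    obtain ⟨i, hi⟩ := Subgroup.mem_zpowers_iff.1 ha
    have hcm : Commute g (a ^ p) := by
      rw [← hi]
      exact (show Commute g z from hcen g).zpow_right i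
    have h1 : (g * a * g⁻¹) ^ p = a ^ p := by
      rw [conj_pow, hcm.eq, mul_assoc, mul_inv_cancel, mul_one]
    rw [h1]
    exact ha
  · rw [hR]
    exact Subgroup.pow_mem _ (Subgroup.mem_zpowers z) p
  · rw [hR, hxz]
    exact Subgroup.mem_zpowers z
  · intro a ha
    exact (hR a).1 ha
  · intro g a ha
    exact hcom a g ((hR a).1 ha)
  · intro g hg
    have := hle g hg
    linarith

end Pool.CND
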