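import Pool.Agent.H37.CNK.Stmts

set_option autoImplicit false

namespace Pool.CND

theorem pcq_mod {B : Type} [AddCommGroup B] (p : ℕ) [Fact p.Prime] [Module (ZMod p) B]
    (v : B) (hv : v ≠ 0) : ∃ M : AddSubgroup B, v ∉ M ∧ ∀ a : B, ∃ i : ℕ, a + i • v ∈ M := by
  obtain ⟨q, hq⟩ := exists_isCompl (Submodule.span (ZMod p) {v})
  refine ⟨q.toAddSubgroup, ?_, ?_⟩
  · intro hvq
    have hvq' : v ∈ q := hvq
    have hw : v ∈ (Submodule.span (ZMod p) {v}) := Submodule.mem_span_singleton_self v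
    have hd := hq.disjoint
    rw [Submodule.disjoint_def] at hd
    exact hv (hd v hw hvq')
  · intro a
    have htop : a ∈ (Submodule.span (ZMod p) {v}) ⊔ q := by
      rw [hq.sup_eq_top]
      exact Submodule.mem_top
    obtain ⟨s, hs, m, hm, hsm⟩ := Submodule.mem_sup.1 htop
    obtain ⟨c, rfl⟩ := Submodule.mem_span_singleton.1 hs
    refine ⟨(-c).val, ?_⟩
    have h1 : a + ((-c).val) • v = m := by
      have h2 : ((-c).val) • v = (-c) • v := by
        conv_rhs => rw [← ZMod.natCast_zmod_val (-c)]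
        rw [Nat.cast_smul_eq_nsmul]
      rw [h2, ← hsm, neg_smul]
      abel
    rw [h1]
    exact hm

theorem pcq_add {B : Type} [AddCommGroup B] (p : ℕ) [Fact p.Prime] (h : ∀ x : B, p • x = 0)
    (v : B) (hv : v ≠ 0) : ∃ M : AddSubgroup B, v ∉ M ∧ ∀ a : B, ∃ i : ℕ, a + i • v ∈ M :=
  @pcq_mod B _ p _ (AddCommGroup.zmodModule h) v hv

theorem pcq_aux {A : Type} [CommGroup A] (p : ℕ) [Fact p.Prime] (h : ∀ x : A, x ^ p = 1)
    (v : A) (hv : v ≠ 1) : ∃ M : Subgroup A, v ∉ M ∧ ∀ a : A, ∃ i : ℕ, a * v ^ i ∈ M := by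
  obtain ⟨M, h1, h2⟩ := pcq_add (B := Additive A) p (fun x => h (Additive.toMul x))
    (Additive.ofMul v) (fun h0 => hv h0)
  refine ⟨AddSubgroup.toSubgroup' M, ?_, ?_⟩
  · intro h3
    exact h1 h3
  · intro a
    obtain ⟨i, hi⟩ := h2 (Additive.ofMul a)
    exact ⟨i, hi⟩

theorem pcq_thm : S_PCQ := by
  intro p G _ _ v hp hp2 hcard hcen hv hv1
  classical
  have : Fact p.Prime := ⟨hp⟩
  have hcomm : ∀ a b : G, a ^ p = 1 → Commute a b := fun a b ha =>
    (Subgroup.mem_center_iff.1 (hcen a ha) b).symm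
  let Om : Subgroup G :=
    { carrier := {a | a ^ p = 1}
      one_mem' := by
        show (1 : G) ^ p = 1
        exact one_pow p
      mul_mem' := by
        intro a b ha hb
        have ha' : a ^ p = 1 := ha
        have hb' : b ^ p = 1 := hb
        show (a * b) ^ p = 1
        rw [(hcomm a b ha').mul_pow, ha', hb', one_mul]
      inv_mem' := by
        intro a ha
        have ha' : a ^ p = 1 := ha
        show (a⁻¹) ^ p = 1
        rw [inv_pow, ha', inv_one] }
  have hOm : ∀ x : Om, x ^ p = 1 := by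
    intro x
    apply Subtype.ext
    exact x.2
  have hmc : ∀ a b : Om, a * b = b * a := by
    intro a b
    apply Subtype.ext
    exact hcomm (a : G) (b : G) a.2
  obtain ⟨M, hvM, hM⟩ := @pcq_aux Om (CommGroup.mk hmc) p _ hOm ⟨v, hv⟩ (by
    intro h
    exact hv1 (congrArg (fun x : Om => (x : G)) h))
  refine ⟨M.map Om.subtype, ⟨?_⟩, ?_, ?_, ?_⟩
  · intro m hm g
    have hc : m ^ p = 1 := by
      obtain ⟨m', _, rfl⟩ := hm
      exact m'.2
    have h1 : g * m * g⁻¹ = m := by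
      rw [← (hcomm m g hc).eq]
      group
    rw [h1]
    exact hm
  · rintro _ ⟨m, hm, rfl⟩
    exact m.2
  · rintro ⟨m, hm, hmv⟩
    apply hvM
    have h5 : m = ⟨v, hv⟩ := by
      apply Subtype.ext
      exact hmv
    rw [← h5]
    exact hm
  · intro a ha
    obtain ⟨i, hi⟩ := hM ⟨a, ha⟩
    exact ⟨i, _, hi, rfl⟩

end Pool.CND
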